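import Mathlib
import Pool.Agent.Lib.MP_a22f36.Defs
import Pool.Agent.Lib.MP_a22f36.Main

set_option autoImplicit false

/-!
There are infinitely many primitive sets of primes for additive prime trees.
-/

namespace Pool.Agent.Results.MP_a22f36_nt.InfinitelyManyPrimitive

open Pool.Agent.Lib.MP_a22f36

/-- The set of primitive finite sets of primes is infinite. -/
theorem result : {P : Finset ℕ | IsPrimitive P}.Infinite :=
  main

end Pool.Agent.Results.MP_a22f36_nt.InfinitelyManyPrimitive
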